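import Pool.Agent.Helper61.QE.St3

/-!
Project QD (MP_d112a4_gt), part E (helper61), module CNJ: the Moebius map conjugates the groups.
-/

set_option autoImplicit false

open MeasureTheory Set Filter Topology Complex
open scoped ContDiff ComplexConjugate ENNReal

namespace Pool.Agent.Helper81.QE

open Pool.Agent.Helper61.QE Pool.Agent.Helper68.QC

/-- a quadratic polynomial with three zeros vanishes -/
private theorem quad_zero {f2 f1 f0 y1 y2 y3 : ℂ} (h12 : y1 ≠ y2) (h13 : y1 ≠ y3) (h23 : y2 ≠ y3)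
    (h1 : f2 * y1 ^ 2 + f1 * y1 + f0 = 0) (h2 : f2 * y2 ^ 2 + f1 * y2 + f0 = 0)
    (h3 : f2 * y3 ^ 2 + f1 * y3 + f0 = 0) : f2 = 0 ∧ f1 = 0 ∧ f0 = 0 := by
  have a1 : f2 * (y1 + y2) + f1 = 0 := by
    have : (y1 - y2) * (f2 * (y1 + y2) + f1) = 0 := by linear_combination h1 - h2
    exact (mul_eq_zero.1 this).resolve_left (sub_ne_zero.2 h12)
  have a2 : f2 * (y1 + y3) + f1 = 0 := by
    have : (y1 - y3) * (f2 * (y1 + y3) + f1) = 0 := by linear_combination h1 - h3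
    exact (mul_eq_zero.1 this).resolve_left (sub_ne_zero.2 h13)
  have a3 : f2 = 0 := by
    have : (y2 - y3) * f2 = 0 := by linear_combination a1 - a2
    exact (mul_eq_zero.1 this).resolve_left (sub_ne_zero.2 h23)
  have a4 : f1 = 0 := by rw [a3] at a1; linear_combination a1
  refine ⟨a3, a4, ?_⟩
  rw [a3, a4] at h1
  linear_combination h1

/-- the quadratic form of the proof -/
private def FF (a b c d a' b' c' d' x0 y0 A1 A2 y z : ℂ) : ℂ :=
  (a' * y + b' * z - y0 * (c' * y + d' * z)) *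
    (c * (x0 * (A1 * (y - y0 * z) + A2 * z) + (y - y0 * z)) +
      d * (A1 * (y - y0 * z) + A2 * z)) -
  ((a - x0 * c) * (x0 * (A1 * (y - y0 * z) + A2 * z) + (y - y0 * z)) +
      (b - x0 * d) * (A1 * (y - y0 * z) + A2 * z)) *
    (A1 * (a' * y + b' * z - y0 * (c' * y + d' * z)) + A2 * (c' * y + d' * z))

private theorem FF_quad (a b c d a' b' c' d' x0 y0 A1 A2 : ℂ) : ∃ f2 f1 f0 : ℂ, ∀ y z,
    FF a b c d a' b' c' d' x0 y0 A1 A2 y z = f2 * y ^ 2 + f1 * y * z + f0 * z ^ 2 := by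
  refine ⟨FF a b c d a' b' c' d' x0 y0 A1 A2 1 0,
    FF a b c d a' b' c' d' x0 y0 A1 A2 1 1 - FF a b c d a' b' c' d' x0 y0 A1 A2 1 0 -
      FF a b c d a' b' c' d' x0 y0 A1 A2 0 1,
    FF a b c d a' b' c' d' x0 y0 A1 A2 0 1, fun y z => ?_⟩
  unfold FF
  ring

/-- the equation for points of the concentration set -/
private theorem FF_point {a b c d a' b' c' d' x0 y0 A1 A2 x y x' y' : ℂ} (hA2 : A2 ≠ 0)
    (hE : y - y0 = (x - x0) * (A1 * (y - y0) + A2))
    (hx' : x' * (c * x + d) = a * x + b) (hy' : y' * (c' * y + d') = a' * y + b')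
    (hE' : y' - y0 = (x' - x0) * (A1 * (y' - y0) + A2)) :
    FF a b c d a' b' c' d' x0 y0 A1 A2 y 1 = 0 := by
  have h1 : (a' * y + b' - y0 * (c' * y + d')) * (c * x + d) =
      (a * x + b - x0 * (c * x + d)) *
        (A1 * (a' * y + b' - y0 * (c' * y + d')) + A2 * (c' * y + d')) := by
    rw [← hx', ← hy']
    linear_combination ((c * x + d) * (c' * y + d')) * hE'
  unfold FF
  set B := A1 * (y - y0) + A2 with hB
  have e1 : A1 * (y - y0 * 1) + A2 * 1 = B := by rw [hB]; ring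
  rw [e1]
  linear_combination B * h1 + (c * (a' * y + b' - y0 * (c' * y + d')) -
    (a - x0 * c) * (A1 * (a' * y + b' - y0 * (c' * y + d')) + A2 * (c' * y + d'))) * hE

theorem pCNJ (hEX : StEX) (hSUB : StSUB) (hSNX : StSNX) (hEQP : StEQP) (hSIN : StSIN)
    (hTR3 : StTR3) (hEQI : StEQI) : StCNJ := by
  intro Γ _ s F h t0 G N R R' U P ν Ri Ri' hFu hFD ht0 hSq hLm x0 hx0 A1 A2 hA2 hS
  have hnq := hEX ‖t0‖ ht0 ν hLm.nbel
  have hinj : Function.Injective (nq ν) := (nq ν).injective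
  have hsnx := hSNX U G P hSq.gd hLm.phol hLm.pinj hLm.pzero hLm.pcon
  have e1 := (hEQP Γ s F h t0 G N R R' U P ν Ri Ri' hFu ht0 hSq hLm).1
  have hsin := hSIN Γ s F h t0 G N R R' U P ν Ri Ri' hFu hFD ht0 hSq hLm
  obtain ⟨i1, i2⟩ := hEQI Γ s F h t0 G N R R' U P ν Ri Ri' hFu ht0 hSq hLm
  have htr := hTR3 Γ s F h t0 G N R R' U P ν Ri Ri' hFu hFD ht0 hSq hLm
  obtain ⟨-, -, -, s4, s5, -, s7, -, -, -⟩ := hSUB
  have hden : ∀ u ∈ D, 1 - nq ν x0 * PG (nq ν) (P u) ≠ 0 := by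
    intro u hu h0
    have h1 : nq ν x0 * PG (nq ν) (P u) = 1 := by linear_combination -h0
    have h2 : PG (nq ν) (P u) ≠ 0 := right_ne_zero_of_mul (by rw [h1]; exact one_ne_zero)
    have h3 : nq ν x0 = (PG (nq ν) (P u))⁻¹ := eq_inv_of_mul_eq_one_left h1
    unfold PG at h3
    rw [inv_inv] at h3
    have h4 : x0 = (P u)⁻¹ := hinj h3
    by_cases hP : P u = 0
    · rw [hP, inv_zero] at h4
      rw [h4, hnq.zero, zero_mul] at h1
      exact zero_ne_one h1
    · exact hsnx x0 hx0 u hu (by rw [h4, inv_mul_cancel₀ hP])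
  refine ⟨hden, ?_⟩
  intro γ u hu v hv H
  -- the unit disc is invariant
  have hsu : SU (jj (s γ)) := (s7 (s γ) (s γ) (hFu.su γ) (hFu.su γ)).2.2
  have hmaps : ∀ w ∈ D, mob (jj (s γ)) w ∈ D := by
    intro w hw
    have hw1 : ‖w‖ < 1 := mem_ball_zero_iff.1 hw
    have h1 := s4 _ hsu w hw1.le
    have h2 := s5 _ hsu w h1
    have h3 : 0 < ‖den (jj (s γ)) w‖ ^ 2 := by positivity
    have h4 : 0 < 1 - ‖w‖ ^ 2 := by nlinarith [norm_nonneg w]
    rw [← h2] at h4
    have h5 := pos_of_mul_pos_left h4 h3.le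
    rw [mem_ball_zero_iff]
    nlinarith [norm_nonneg (mob (jj (s γ)) w)]
  -- the equation on the concentration set
  have hE : ∀ x ∈ Sset U G, nq ν x - nq ν x0 = (x - x0) * (A1 * (nq ν x - nq ν x0) + A2) := by
    intro x hx
    by_cases hxx : x = x0
    · rw [hxx]; ring
    · have h1 := hS x hx hxx
      have h2 : x - x0 ≠ 0 := sub_ne_zero.2 hxx
      have h3 : nq ν x - nq ν x0 ≠ 0 := sub_ne_zero.2 fun h => hxx (hinj h)
      have h4 : (x - x0) * (x - x0)⁻¹ = 1 := mul_inv_cancel₀ h2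
      have h5 : (nq ν x - nq ν x0) * (nq ν x - nq ν x0)⁻¹ = 1 := mul_inv_cancel₀ h3
      linear_combination (x - x0) * (nq ν x - nq ν x0) * h1 - (nq ν x - nq ν x0) * h4 +
        (x - x0) * A2 * h5
  -- the quadratic form vanishes
  set a := Ri γ 0 0 with ha
  set b := Ri γ 0 1 with hb
  set c := Ri γ 1 0 with hc
  set d := Ri γ 1 1 with hd
  set a' := Ri' γ 0 0 with ha'
  set b' := Ri' γ 0 1 with hb'
  set c' := Ri' γ 1 0 with hc'
  set d' := Ri' γ 1 1 with hd'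
  set y0 := nq ν x0 with hy0
  have hF : ∀ x ∈ Sset U G, FF a b c d a' b' c' d' x0 y0 A1 A2 (nq ν x) 1 = 0 := by
    intro x hx
    obtain ⟨h1, h2⟩ := hsin x hx γ
    obtain ⟨j1, j2, -, -⟩ := i1 γ
    have h3 : den (Ri' γ) (nq ν x) ≠ 0 := fun h0 => h1 ((j1 x).2 h0)
    have h4 := j2 x h1
    refine FF_point (x := x) (x' := mob (Ri γ) x) (y' := nq ν (mob (Ri γ) x)) hA2 (hE x hx) ?_ ?_
      (hE _ h2)
    · show (Ri γ 0 0 * x + Ri γ 0 1) / den (Ri γ) x * den (Ri γ) x = a * x + b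
      rw [div_mul_cancel₀ _ h1]
    · rw [h4]
      show (Ri' γ 0 0 * nq ν x + Ri' γ 0 1) / den (Ri' γ) (nq ν x) * den (Ri' γ) (nq ν x) =
        a' * nq ν x + b'
      rw [div_mul_cancel₀ _ h3]
  obtain ⟨f2, f1, f0, hf⟩ := FF_quad a b c d a' b' c' d' x0 y0 A1 A2
  obtain ⟨x1, hx1, r1⟩ := htr 0 (by constructor <;> norm_num)
  obtain ⟨x2, hx2, r2⟩ := htr (1 / 2) (by constructor <;> norm_num)
  obtain ⟨x3, hx3, r3⟩ := htr 1 (by constructor <;> norm_num)
  have n12 : nq ν x1 ≠ nq ν x2 := fun h => by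
    have := congrArg Complex.re (hinj h); rw [r1, r2] at this; norm_num at this
  have n13 : nq ν x1 ≠ nq ν x3 := fun h => by
    have := congrArg Complex.re (hinj h); rw [r1, r3] at this; norm_num at this
  have n23 : nq ν x2 ≠ nq ν x3 := fun h => by
    have := congrArg Complex.re (hinj h); rw [r2, r3] at this; norm_num at this
  have q : ∀ x ∈ Sset U G, f2 * nq ν x ^ 2 + f1 * nq ν x + f0 = 0 := by
    intro x hx
    have h1 := hF x hx
    rw [hf] at h1
    linear_combination h1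
  obtain ⟨z2, z1, z0⟩ := quad_zero n12 n13 n23 (q x1 hx1) (q x2 hx2) (q x3 hx3)
  have hF0 : ∀ y z, FF a b c d a' b' c' d' x0 y0 A1 A2 y z = 0 := by
    intro y z
    rw [hf, z2, z1, z0]
    ring
  -- the points of the outer domain
  obtain ⟨k1, k2⟩ := e1 γ v hv
  obtain ⟨l1, l2⟩ := i2 γ u hu
  set p := P v with hp
  set t := PG (nq ν) (P u) with ht
  have m1 : P (mob (jj (s γ)) v) * (b * p + a) = d * p + c := by
    rw [k2]
    show (Ri γ 1 1 * p + Ri γ 1 0) / den (jj (Ri γ)) p * den (jj (Ri γ)) p = d * p + c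
    rw [div_mul_cancel₀ _ k1]
  have m2 : PG (nq ν) (P (mob (jj (s γ)) u)) * (b' * t + a') = d' * t + c' := by
    rw [l2]
    show (Ri' γ 1 1 * t + Ri' γ 1 0) / den (jj (Ri' γ)) t * den (jj (Ri' γ)) t = d' * t + c'
    rw [div_mul_cancel₀ _ l1]
  have k1' : b * p + a ≠ 0 := k1
  have l1' : b' * t + a' ≠ 0 := l1
  have w1 : 1 - x0 * p ≠ 0 := fun h0 => hsnx x0 hx0 v hv (by linear_combination -h0)
  have w2 : 1 - y0 * t ≠ 0 := hden u hu
  have w3 : 1 - x0 * P (mob (jj (s γ)) v) ≠ 0 := fun h0 =>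
    hsnx x0 hx0 _ (hmaps v hv) (by linear_combination -h0)
  have w4 : 1 - y0 * PG (nq ν) (P (mob (jj (s γ)) u)) ≠ 0 := hden _ (hmaps u hu)
  set p1 := P (mob (jj (s γ)) v) with hp1
  set t1 := PG (nq ν) (P (mob (jj (s γ)) u)) with ht1
  have H1 : p * (1 - y0 * t) = (1 - x0 * p) * (A1 * (1 - y0 * t) + A2 * t) := by
    have g1 : p / (1 - x0 * p) * (1 - x0 * p) = p := div_mul_cancel₀ _ w1
    have g2 : t / (1 - y0 * t) * (1 - y0 * t) = t := div_mul_cancel₀ _ w2
    linear_combination (1 - x0 * p) * (1 - y0 * t) * H - (1 - y0 * t) * g1 +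
      (1 - x0 * p) * A2 * g2
  set B := A1 * (1 - y0 * t) + A2 * t with hB
  have w5 : 1 - y0 * t + x0 * B ≠ 0 := by
    intro h0
    have g1 : B = 0 := by linear_combination p * h0 - H1
    rw [g1] at h0
    exact w2 (by linear_combination h0)
  -- the goal without denominators
  have G1 : (d * p + c) * (a' + b' * t - y0 * (c' + d' * t)) =
      (b * p + a - x0 * (d * p + c)) *
        (A1 * (a' + b' * t - y0 * (c' + d' * t)) + A2 * (c' + d' * t)) := by
    apply mul_left_cancel₀ w5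
    have g0 := hF0 1 t
    unfold FF at g0
    have e1 : A1 * (1 - y0 * t) + A2 * t = B := rfl
    rw [e1] at g0
    linear_combination g0 + (d * (a' + b' * t - y0 * (c' + d' * t)) -
      (b - x0 * d) * (A1 * (a' + b' * t - y0 * (c' + d' * t)) + A2 * (c' + d' * t))) * H1
  have G2 : p1 * (1 - y0 * t1) = (1 - x0 * p1) * (A1 * (1 - y0 * t1) + A2 * t1) := by
    apply mul_left_cancel₀ (mul_ne_zero k1' l1')
    have g1 : d' * t + c' = t1 * (b' * t + a') := m2.symm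
    have g2 : d * p + c = p1 * (b * p + a) := m1.symm
    rw [show c' + d' * t = t1 * (b' * t + a') by rw [← g1]; ring, g2] at G1
    linear_combination G1
  have g1 : p1 / (1 - x0 * p1) * (1 - x0 * p1) = p1 := div_mul_cancel₀ _ w3
  have g2 : t1 / (1 - y0 * t1) * (1 - y0 * t1) = t1 := div_mul_cancel₀ _ w4
  apply mul_left_cancel₀ (mul_ne_zero w3 w4)
  linear_combination G2 + (1 - y0 * t1) * g1 - (1 - x0 * p1) * A2 * g2

end Pool.Agent.Helper81.QE
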